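import Mathlib
import Pool.Agent.Run7.h955.I

/-!
# The congruence subgroup problem for `Mod_S` and the finite quotients of `Mod_S`

Let `π` be the fundamental group of the closed orientable surface `S` of genus `g ≥ 2` and
`Mod_S = Out (π)`.  For a characteristic subgroup `Γ` of `π` let `K_Γ` be the kernel of
`Out (π) → Out (π / Γ)`.  The problem asks whether every subgroup of finite index of `Mod_S` contains
some `K_Γ` with `Γ` of finite index.

We show that every subgroup `H` of finite index contains some `K_Γ` which is of finite index in `Mod_S`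
(`Γ` is characteristic, its index may be infinite); more exactly, every normal subgroup of finite index
of `Mod_S` is equal to some `K_Γ`.  So the question is equivalent to: is `K_Γ` a congruence subgroup
for all the characteristic subgroups `Γ` of `π` such that `Mod_S` acts on `π / Γ` by finitely many outer
automorphisms?

Subgroups of `Out (G)` are given by the subgroups of `Aut (G)` which contain the inner automorphisms,
as in the frozen statement `S01559`.

The proof is an application of the theorem of helper955 that all the normal subgroups of `Out (π)` are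
kernels (`Pool.Agent.Run7.h955.I`, handed in on the problem MP_e058c8_al).
-/

set_option autoImplicit false

namespace Pool.Agent.Results.MP_59b15d_al.FiniteIndexKernels

/-- The fundamental group of the closed orientable surface of genus `g`. -/
abbrev SurfaceGroup (g : ℕ) : Type := PresentedGroup
  ({(List.ofFn (fun i : Fin g =>
      FreeGroup.of (Sum.inl i : Fin g ⊕ Fin g) *
      FreeGroup.of (Sum.inr i : Fin g ⊕ Fin g) *
      (FreeGroup.of (Sum.inl i : Fin g ⊕ Fin g))⁻¹ *
      (FreeGroup.of (Sum.inr i : Fin g ⊕ Fin g))⁻¹)).prod} :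
    Set (FreeGroup (Fin g ⊕ Fin g)))

section defs

variable {G : Type} [Group G]

/-- `f` acts on `G / Γ` as an inner automorphism (`Γ` characteristic): the class of `f` is in the kernel
`K_Γ` of `Out (G) → Out (G / Γ)`. -/
def InnerMod (Γ : Subgroup G) (f : MulAut G) : Prop :=
  ∃ h : G, ∀ x : G, f x * (h * x * h⁻¹)⁻¹ ∈ Γ

/-- `H` contains the inner automorphisms. -/
def ContainsInner (H : Subgroup (MulAut G)) : Prop := ∀ x : G, MulAut.conj x ∈ H

/-- The kernel `K_Γ` has finite index in `Out (G)`: the group `Out (G)` acts on `G / Γ` by finitely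
many outer automorphisms. -/
def FiniteOuterAction (Γ : Subgroup G) : Prop :=
  ∃ K : Subgroup (MulAut G), K.FiniteIndex ∧ ∀ f : MulAut G, f ∈ K ↔ InnerMod Γ f

variable (G) in
/-- The statement of Q1 for `G`: every subgroup of finite index of `Out (G)` contains `K_Δ` for some
characteristic subgroup `Δ` of finite index of `G`. -/
def CongruenceSubgroupProperty : Prop :=
  ∀ H : Subgroup (MulAut G), H.FiniteIndex → ContainsInner H →
    ∃ Δ : Subgroup G, Δ.Characteristic ∧ Δ.FiniteIndex ∧ ∀ f : MulAut G, InnerMod Δ f → f ∈ H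

variable (G) in
/-- Every normal subgroup of `Out (G)` is some `K_Γ`. -/
def NormalAreKernels : Prop :=
  ∀ N : Subgroup (MulAut G), N.Normal → ContainsInner N →
    ∃ Γ : Subgroup G, Γ.Characteristic ∧ ∀ f : MulAut G, f ∈ N ↔ InnerMod Γ f

end defs

section transfer

variable {G S : Type} [Group G] [Group S]

theorem normalAreKernels_of_equiv (e : G ≃* S) (h : NormalAreKernels S) : NormalAreKernels G := by
  intro N hN hc
  have hN' : (N.comap (MulAut.congr e).symm.toMonoidHom).Normal := hN.comap _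
  have hcj : ∀ x : S, (MulAut.congr e).symm (MulAut.conj x) = MulAut.conj (e.symm x) := by
    intro x
    ext z
    change e.symm (x * e z * x⁻¹) = e.symm x * z * (e.symm x)⁻¹
    rw [map_mul, map_mul, map_inv, e.symm_apply_apply]
  obtain ⟨Γ, hΓ, hf⟩ := h _ hN' (fun x => by
    change (MulAut.congr e).symm (MulAut.conj x) ∈ N
    rw [hcj]
    exact hc _)
  refine ⟨Γ.comap e.toMonoidHom, ?_, ?_⟩
  · refine ⟨fun φ => ?_⟩
    ext x
    change e (φ x) ∈ Γ ↔ e x ∈ Γ
    have h1 := hΓ.fixed (MulAut.congr e φ)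
    have h2 : (e x ∈ Γ.comap (MulAut.congr e φ).toMonoidHom) ↔ e x ∈ Γ := by rw [h1]
    rw [← h2]
    change e (φ x) ∈ Γ ↔ e (φ (e.symm (e x))) ∈ Γ
    rw [e.symm_apply_apply]
  · intro f
    have h1 := hf (MulAut.congr e f)
    have h2 : MulAut.congr e f ∈ N.comap (MulAut.congr e).symm.toMonoidHom ↔ f ∈ N := by
      change (MulAut.congr e).symm (MulAut.congr e f) ∈ N ↔ f ∈ N
      rw [MulEquiv.symm_apply_apply]
    rw [← h2, h1]
    constructor
    · rintro ⟨y, hy⟩
      refine ⟨e.symm y, fun x => ?_⟩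
      have h3 := hy (e x)
      change e (f (e.symm (e x))) * (y * e x * y⁻¹)⁻¹ ∈ Γ at h3
      rw [e.symm_apply_apply] at h3
      change e (f x * (e.symm y * x * (e.symm y)⁻¹)⁻¹) ∈ Γ
      rw [map_mul, map_inv, map_mul, map_mul, map_inv, e.apply_symm_apply]
      exact h3
    · rintro ⟨y, hy⟩
      refine ⟨e y, fun x => ?_⟩
      have h3 := hy (e.symm x)
      change e (f (e.symm x) * (y * e.symm x * y⁻¹)⁻¹) ∈ Γ at h3
      rw [map_mul, map_inv, map_mul, map_mul, map_inv, e.apply_symm_apply] at h3
      exact h3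

end transfer

section kernels

variable {π : Type} [Group π]

/-- The step from a normal subgroup `M` of `Aut (π)` to the characteristic subgroup. -/
theorem eq_kernel (N M : Subgroup (MulAut π)) (hM : M.Normal)
    (hMN : M ⊔ (MulAut.conj : π →* MulAut π).range = N)
    (hC : ∀ f : MulAut π, (∀ z, MulAut.conj (f z * z⁻¹) ∈ M) → f ∈ M) :
    ∃ Γ : Subgroup π, Γ.Characteristic ∧ ∀ f : MulAut π, f ∈ N ↔ InnerMod Γ f := by
  have cm : ∀ (f : MulAut π) (y : π), f * MulAut.conj y * f⁻¹ = MulAut.conj (f y) := by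
    intro f y
    ext z
    simp [MulAut.mul_apply, MulAut.conj_apply]
  have hchar : (M.comap (MulAut.conj : π →* MulAut π)).Characteristic := by
    refine ⟨fun f => ?_⟩
    ext y
    change MulAut.conj ((f : MulAut π) y) ∈ M ↔ MulAut.conj y ∈ M
    rw [← cm f y]
    constructor
    · intro h
      have h2 := hM.conj_mem _ h ((f : MulAut π)⁻¹)
      have e : ((f : MulAut π)⁻¹) * ((f : MulAut π) * MulAut.conj y * (f : MulAut π)⁻¹) *
          ((f : MulAut π)⁻¹)⁻¹ = MulAut.conj y := by group
      rw [e] at h2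
      exact h2
    · intro h
      exact hM.conj_mem _ h f
  have hnorm : (MulAut.conj : π →* MulAut π).range.Normal := by
    refine ⟨?_⟩
    rintro _ ⟨y, rfl⟩ f
    exact ⟨f y, (cm f y).symm⟩
  refine ⟨M.comap (MulAut.conj : π →* MulAut π), hchar, fun f => ?_⟩
  rw [← hMN]
  constructor
  · intro h
    obtain ⟨m, hm, c, ⟨y, rfl⟩, rfl⟩ := (Subgroup.mem_sup_of_normal_right).mp h
    refine ⟨m y, fun x => ?_⟩
    -- `m (y x y⁻¹) (m y x (m y)⁻¹)⁻¹`
    change MulAut.conj (m (y * x * y⁻¹) * (m y * x * (m y)⁻¹)⁻¹) ∈ M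
    have e1 : m (y * x * y⁻¹) * (m y * x * (m y)⁻¹)⁻¹ = m y * (m x * x⁻¹) * (m y)⁻¹ := by
      rw [map_mul, map_mul, map_inv]; group
    rw [e1, map_mul, map_mul, map_inv]
    refine hM.conj_mem _ ?_ _
    rw [map_mul, map_inv, ← cm m x]
    have e : m * MulAut.conj x * m⁻¹ * (MulAut.conj x)⁻¹ =
        m * (MulAut.conj x * m⁻¹ * (MulAut.conj x)⁻¹) := by group
    rw [e]
    exact M.mul_mem hm (hM.conj_mem _ (M.inv_mem hm) _)
  · rintro ⟨h, hh⟩
    have h2 : (MulAut.conj h)⁻¹ * f ∈ M := by
      apply hC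
      intro z
      have h3 : MulAut.conj (f z * (h * z * h⁻¹)⁻¹) ∈ M := hh z
      have e1 : ((MulAut.conj h)⁻¹ * f) z * z⁻¹ = h⁻¹ * (f z * (h * z * h⁻¹)⁻¹) * h := by
        rw [MulAut.mul_apply, ← map_inv, MulAut.conj_apply]; group
      rw [e1]
      have h4 := hM.conj_mem _ h3 (MulAut.conj h⁻¹)
      rw [← map_inv, ← map_mul, ← map_mul, inv_inv] at h4
      exact h4
    have e : f = MulAut.conj h * ((MulAut.conj h)⁻¹ * f) := by group
    rw [e]
    exact (M ⊔ _).mul_mem (Subgroup.mem_sup_right ⟨h, rfl⟩) (Subgroup.mem_sup_left h2)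

end kernels

theorem surface_normalAreKernels (g : ℕ) (hg : 2 ≤ g) : NormalAreKernels (SurfaceGroup g) := by
  obtain ⟨n, rfl⟩ : ∃ n, g = n + 2 := ⟨g - 2, by omega⟩
  -- the other standard presentation
  have h0 : NormalAreKernels (Run7.h955.SG (n + 2)) := by
    intro N hN hc
    obtain ⟨M, hM, h1, h2⟩ := Run7.h955.main_SG n N hN (by rintro _ ⟨y, rfl⟩; exact hc y)
    exact eq_kernel N M hM h1 h2
  let E : Fin (n + 2) × Bool ≃ Fin (n + 2) ⊕ Fin (n + 2) :=
    { toFun := fun x => if x.2 then Sum.inr x.1 else Sum.inl x.1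
      invFun := fun y => Sum.elim (fun i => (i, false)) (fun i => (i, true)) y
      left_inv := by rintro ⟨i, b⟩; cases b <;> rfl
      right_inv := by rintro (i | i) <;> rfl }
  have hrel : (FreeGroup.freeGroupCongr E '' ({Run7.h955.rel (n + 2)} :
      Set (FreeGroup (Fin (n + 2) × Bool)))) =
      ({(List.ofFn (fun i : Fin (n + 2) =>
      FreeGroup.of (Sum.inl i : Fin (n + 2) ⊕ Fin (n + 2)) *
      FreeGroup.of (Sum.inr i : Fin (n + 2) ⊕ Fin (n + 2)) *
      (FreeGroup.of (Sum.inl i : Fin (n + 2) ⊕ Fin (n + 2)))⁻¹ *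
      (FreeGroup.of (Sum.inr i : Fin (n + 2) ⊕ Fin (n + 2)))⁻¹)).prod} :
    Set (FreeGroup (Fin (n + 2) ⊕ Fin (n + 2)))) := by
    rw [Set.image_singleton]
    congr 1
    unfold Run7.h955.rel
    rw [map_list_prod, List.map_ofFn]
    congr 2
  have e := PresentedGroup.equivPresentedGroup
    ({Run7.h955.rel (n + 2)} : Set (FreeGroup (Fin (n + 2) × Bool))) E
  rw [hrel] at e
  exact normalAreKernels_of_equiv e.symm h0

/-- The normal core still contains the inner automorphisms. -/
theorem core_contains {G : Type} [Group G] {H : Subgroup (MulAut G)} (hH : ContainsInner H) :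
    ContainsInner H.normalCore := by
  intro x f
  have e : f * MulAut.conj x * f⁻¹ = MulAut.conj (f x) := by
    ext z
    simp [MulAut.mul_apply, MulAut.conj_apply]
  rw [e]
  exact hH (f x)

/-- **The congruence subgroup problem for the mapping class groups.**  Let `G` be the fundamental group
of the closed orientable surface of genus `g ≥ 2`.

(1) Every subgroup `H` of finite index of `Out (G)` contains `K_Γ` for a characteristic subgroup `Γ`
of `G` such that `K_Γ` has finite index in `Out (G)`; if `H` is normal, then `H = K_Γ` for such a `Γ`.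

(2) The congruence subgroup property (Q1 for the genus `g`) holds if and only if for all the
characteristic subgroups `Γ` of `G` such that `Out (G)` acts on `G / Γ` by finitely many outer
automorphisms there is a characteristic subgroup `Δ` of finite index of `G` with `K_Δ ≤ K_Γ`. -/
theorem result (g : ℕ) (hg : 2 ≤ g) (G : Type) [Group G] (hG : Nonempty (G ≃* SurfaceGroup g)) :
    (∀ H : Subgroup (MulAut G), H.FiniteIndex → ContainsInner H →
      ∃ Γ : Subgroup G, Γ.Characteristic ∧ FiniteOuterAction Γ ∧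
        (∀ f : MulAut G, InnerMod Γ f → f ∈ H) ∧
        (H.Normal → ∀ f : MulAut G, f ∈ H ↔ InnerMod Γ f)) ∧
    (CongruenceSubgroupProperty G ↔
      ∀ Γ : Subgroup G, Γ.Characteristic → FiniteOuterAction Γ →
        ∃ Δ : Subgroup G, Δ.Characteristic ∧ Δ.FiniteIndex ∧
          ∀ f : MulAut G, InnerMod Δ f → InnerMod Γ f) := by
  obtain ⟨e⟩ := hG
  have key : NormalAreKernels G := normalAreKernels_of_equiv e (surface_normalAreKernels g hg)
  have one : ∀ H : Subgroup (MulAut G), H.FiniteIndex → ContainsInner H →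
      ∃ Γ : Subgroup G, Γ.Characteristic ∧ FiniteOuterAction Γ ∧
        (∀ f : MulAut G, InnerMod Γ f → f ∈ H) ∧
        (H.Normal → ∀ f : MulAut G, f ∈ H ↔ InnerMod Γ f) := by
    intro H hfin hin
    have := hfin
    obtain ⟨Γ, hΓ, hf⟩ := key H.normalCore inferInstance (core_contains hin)
    refine ⟨Γ, hΓ, ⟨H.normalCore, inferInstance, hf⟩, fun f h => ?_, fun hN f => ?_⟩
    · exact H.normalCore_le ((hf f).mpr h)
    · have := hN
      rw [← hf f, Subgroup.normalCore_eq_self H]
  refine ⟨one, fun h Γ hΓ hK => ?_, fun h H hfin hin => ?_⟩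
  · obtain ⟨K, hKf, hK⟩ := hK
    obtain ⟨Δ, h1, h2, h3⟩ := h K hKf (fun x => (hK _).mpr ⟨x, fun z => by
      rw [MulAut.conj_apply, mul_inv_cancel]
      exact one_mem _⟩)
    exact ⟨Δ, h1, h2, fun f hf => (hK f).mp (h3 f hf)⟩
  · obtain ⟨Γ, h1, h2, h3, -⟩ := one H hfin hin
    obtain ⟨Δ, h4, h5, h6⟩ := h Γ h1 h2
    exact ⟨Δ, h4, h5, fun f hf => h3 f (h6 f hf)⟩

end Pool.Agent.Results.MP_59b15d_al.FiniteIndexKernels
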