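import Mathlib
import Pool.Agent.Run7.h132.PJ.K5

/-!
# Quotients of `Mod_g` in `PGL_d(K)`, `d < binom (g - 8) 2`

`Mod_g` is the mapping class group of the closed orientable surface of genus `g` (the classes of the
automorphisms of `π_1(S)` preserving the intersection form, modulo the inner automorphisms) and
`Humphries g` is its subgroup generated by Humphries' `2 g + 1` Dehn twists (it is `Mod_g` by
Humphries' theorem, which is not used). Let `d < binom (g - 8) 2`.

(1) Every homomorphism `f : Mod_g → PGL_d(K)`, `K` a field, lifts on `Humphries g` to a linear
representation `F : Humphries g → GL_d(K)`, for which Humphries' twists satisfy `(F(t) - 1)^2 = 0`. If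
`K` has characteristic `p > 0`, then `(F(x) - 1) (F(y) - 1) (F(z) - 1) = 0` for all `x`, `z` and all
`y` acting trivially on `H_1(S; ℤ/p)`.

(2) If `K` has characteristic `p > 0`, then `f (Humphries g)` is finite; if `p` does not divide
`2 g - 2`, or `f (Humphries g)` has no nontrivial normal `p`-subgroup, or `f` is completely
reducible, then `f` kills all the elements of `Humphries g` acting trivially on `H_1(S; ℤ/p)`.

(3) If `K` has characteristic `0` and `f (Humphries g)` is finite, then `f` is trivial on
`Humphries g`.

(4) Let `π : Mod_g → Q` be a homomorphism such that `π (Humphries g)` is finite, and let `Q` be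
embedded in `PGL_d(K)` for some field `K`. If `2 g - 2 ≠ 0` in `K`, or if `π (Humphries g)` has no
nontrivial normal subgroup of prime power order (for instance if it is a finite nonabelian simple
group), then the kernel of `π` contains the congruence subgroup given by some characteristic subgroup
of finite index of `π_1(S)` (within `Humphries g`).
-/

set_option autoImplicit false

namespace Pool.Agent.Results.MP_59b15d_al.ProjectiveQuotients

open Pool.Agent.H29R2.MG Pool.Agent.TH35.MG Pool.Agent.R352.MG Pool.Agent.R665.MGR
  Pool.Agent.Run7.h132.PQ

universe u v

/-- Let `d < binom (g - 8) 2`. Every homomorphism `f : Mod_g → PGL_d(K)` lifts to a linear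
representation `F` of the group `Humphries g` generated by Humphries' twists. (a) If `K` has
characteristic `p > 0`, then `f (Humphries g)` is finite, and if it has no normal `p`-subgroup other
than `1`, or `f` is completely reducible, or `p` does not divide `2 g - 2`, then `f` kills the elements
of `Humphries g` acting trivially on `H_1(S; ℤ/p)`, hence all classes in `Humphries g` of automorphisms
acting on `π_1(S) / Γ` as inner automorphisms, where `Γ` consists of the elements which are zero in
`H_1(S; ℤ/p)`. (b) If `K` has characteristic zero and `f (Humphries g)` is finite, it is trivial.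
(c) If `π : Mod_g → Q`, `π (Humphries g)` is finite, `Q` embeds in `PGL_d(K)` for some field `K`, and
`π (Humphries g)` has no nontrivial normal subgroups of prime power order or `2 g - 2` is not zero in
`K`, then `π` kills the classes in `Humphries g` of all automorphisms acting on `π_1(S) / Γ` as inner
automorphisms, for some characteristic subgroup `Γ` of finite index. -/
theorem result (g d : ℕ) (hd : d < (g - 8).choose 2) :
    (∃ T : Mod g, IsTwistAt g 1 T) ∧
    (∀ (K : Type u) [Field K] (f : Mod g →* PGL d K),
      ∃ F : Humphries g →* GLd d K, IsLift f F) ∧
    (∀ p : ℕ, p.Prime → ∃ Γ : Subgroup (SurfaceGroup g), Γ.Characteristic ∧ Γ.FiniteIndex ∧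
      (∀ x, x ∈ Γ ↔ ∀ j, (p : ℤ) ∣ homologyClass x j) ∧
      ∀ (K : Type u) [Field K] [CharP K p], CharPCase g d p Γ K) ∧
    (∀ (K : Type u) [Field K] [CharZero K] (f : Mod g →* PGL d K), Finite (Image f) →
      ∀ x ∈ Humphries g, f x = 1) ∧
    QuotientCase.{u, v} g d :=
  main hd

end Pool.Agent.Results.MP_59b15d_al.ProjectiveQuotients
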