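import Pool.Agent.Run7.h41.NF.Ind6

/-!
# Sections of the mapping class group and normal subgroups of the surface group

Let `G` be the fundamental group of the closed orientable surface `S` of genus `g ≥ 2`, so
`Mod_S = Out(G)`.  There is an element `w` of `G` whose orbit under `Mod_S` is independent: the image of
`w` under an automorphism `f` is in the normal closure `Γ_X` of the images of `w` under the
automorphisms with class in `X` only if the class of `f` is in `X`.  Every section `H/N` of `Mod_S` is
realised by a normal subgroup `Γ` of `G`: `H` is the stabiliser of `Γ`, and `N` is the group of the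
elements which act trivially on `G/Γ` up to inner automorphisms.
-/

set_option autoImplicit false

open Pointwise

namespace Pool.Agent.Results.MP_59b15d_al.StabilisersOfNormalSubgroups

/-- The fundamental group of the closed orientable surface of genus `g`. -/
abbrev SurfaceGroup (g : ℕ) : Type := PresentedGroup
  ({(List.ofFn (fun i : Fin g =>
      FreeGroup.of (Sum.inl i : Fin g ⊕ Fin g) *
      FreeGroup.of (Sum.inr i : Fin g ⊕ Fin g) *
      (FreeGroup.of (Sum.inl i : Fin g ⊕ Fin g))⁻¹ *
      (FreeGroup.of (Sum.inr i : Fin g ⊕ Fin g))⁻¹)).prod} :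
    Set (FreeGroup (Fin g ⊕ Fin g)))

section

variable (G : Type) [Group G]

/-- The subgroup of inner automorphisms of `G`. -/
def Inn : Subgroup (MulAut G) := (MulAut.conj : G →* MulAut G).range

theorem conj_map (f : MulAut G) (y : G) : f * MulAut.conj y * f⁻¹ = MulAut.conj (f y) := by
  ext z
  simp [MulAut.mul_apply, MulAut.conj_apply]

instance normal_Inn : (Inn G).Normal := by
  refine ⟨?_⟩
  rintro _ ⟨y, rfl⟩ f
  exact ⟨f y, (conj_map G f y).symm⟩

/-- The outer automorphism group `Aut(G)/Inn(G)`. -/
abbrev Out : Type := MulAut G ⧸ Inn G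

end

variable {G : Type} [Group G]

/-- The automorphism `f` acts on `G/Γ` as an inner automorphism. -/
def InnerMod (Γ : Subgroup G) (f : MulAut G) : Prop :=
  ∃ g : G, ∀ x : G, f x * (g * x * g⁻¹)⁻¹ ∈ Γ

/-- The stabiliser of `Γ` in `Out(G)`: the classes of the automorphisms `f` with `f(Γ) = Γ`. -/
def Stab (Γ : Subgroup G) : Subgroup (Out G) :=
  (MulAction.stabilizer (MulAut G) Γ).map (QuotientGroup.mk' (Inn G))

/-- The normal closure of the elements `f(w)` for all automorphisms `f` with class in `X`. -/
def NC (w : G) (X : Set (Out G)) : Subgroup G :=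
  Subgroup.normalClosure {z | ∃ f : MulAut G, (f : Out G) ∈ X ∧ z = f w}

/-- `N` contains the kernel of `Out(G) → Out(G/K)` for some characteristic subgroup `K` of finite index
of `G`. -/
def IsCongruence (N : Subgroup (Out G)) : Prop :=
  ∃ K : Subgroup G, K.Characteristic ∧ K.FiniteIndex ∧
    ∀ f : MulAut G, InnerMod K f → (f : Out G) ∈ N

/-- The normal subgroup `Γ` realises the section `H/N` of `Out(G)`: the stabiliser of `Γ` in `Out(G)` is
`H`, and `N` is the group of the elements acting trivially on `G/Γ` (up to inner automorphisms). -/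
def Realises (Γ : Subgroup G) (H N : Subgroup (Out G)) : Prop :=
  Stab Γ = H ∧ ∀ f : MulAut G, InnerMod Γ f ↔ (f : Out G) ∈ N

theorem smul_mem_iff (f : MulAut G) (Γ : Subgroup G) : f • Γ = Γ ↔
    (∀ z ∈ Γ, f z ∈ Γ) ∧ ∀ z ∈ Γ, f⁻¹ z ∈ Γ := by
  constructor
  · intro h
    constructor
    · intro z hz
      have h1 : f • z ∈ f • Γ := Subgroup.smul_mem_pointwise_smul z f Γ hz
      rw [h] at h1
      exact h1
    · intro z hz
      rw [← h] at hz
      exact Subgroup.mem_pointwise_smul_iff_inv_smul_mem.mp hz
  · rintro ⟨h1, h2⟩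
    ext z
    rw [Subgroup.mem_pointwise_smul_iff_inv_smul_mem]
    constructor
    · intro hz
      have h3 := h1 _ hz
      change f (f⁻¹ z) ∈ Γ at h3
      rwa [MulAut.apply_inv_self] at h3
    · intro hz
      exact h2 z hz

theorem conj_smul (Γ : Subgroup G) (hΓ : Γ.Normal) (y : G) : (MulAut.conj y : MulAut G) • Γ = Γ := by
  rw [smul_mem_iff]
  constructor
  · intro z hz
    exact hΓ.conj_mem z hz y
  · intro z hz
    rw [← map_inv]
    exact hΓ.conj_mem z hz y⁻¹

theorem mem_Stab (Γ : Subgroup G) (hΓ : Γ.Normal) (f : MulAut G) :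
    (f : Out G) ∈ Stab Γ ↔ f • Γ = Γ := by
  constructor
  · rintro ⟨f', hf', h⟩
    have h1 : ((f' : MulAut G) : Out G) = (f : Out G) := h
    rw [QuotientGroup.eq] at h1
    obtain ⟨y, hy⟩ := h1
    have e : f = f' * MulAut.conj y := by rw [hy]; group
    have h2 : f' • Γ = Γ := hf'
    rw [e, mul_smul, conj_smul Γ hΓ, h2]
  · intro h
    exact ⟨f, h, rfl⟩

theorem coe_conj_mul (y : G) (f : MulAut G) : ((MulAut.conj y * f : MulAut G) : Out G) = (f : Out G) := by
  have h : ((MulAut.conj y : MulAut G) : Out G) = 1 := (QuotientGroup.eq_one_iff _).mpr ⟨y, rfl⟩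
  rw [QuotientGroup.mk_mul, h, one_mul]

theorem independent (hI : Run7.h41.IND.Ind G) :
    ∃ w : G,
      (∀ (X : Set (Out G)) (f : MulAut G), f w ∈ NC w X ↔ (f : Out G) ∈ X) ∧
      (∀ (X : Set (Out G)) (f : MulAut G), InnerMod (NC w X) f ↔ f ∈ Inn G) ∧
      (∀ X Y : Set (Out G), NC w X ≤ NC w Y ↔ X ⊆ Y) ∧
      (∀ (f : MulAut G) (X : Set (Out G)), f • NC w X = NC w {q | (f : Out G)⁻¹ * q ∈ X}) ∧
      ∀ H : Subgroup (Out G), Stab (NC w H) = H := by
  obtain ⟨w, h1, -⟩ := Run7.h41.IND.main_ind hI
  have hNC : ∀ X : Set (Out G), NC w X =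
      Run7.h41.IND.NX w {f | (f : Out G) ∈ X} := by
    intro X
    unfold NC Run7.h41.IND.NX
    congr 1
  have hX : ∀ X : Set (Out G),
      ∀ f ∈ {f : MulAut G | (f : Out G) ∈ X},
      ∀ y, MulAut.conj y * f ∈
        {f : MulAut G | (f : Out G) ∈ X} := by
    intro X f hf y
    change ((MulAut.conj y * f : MulAut _) : Out G) ∈ X
    rw [coe_conj_mul]
    exact hf
  have a1 : ∀ (X : Set (Out G)) (f : MulAut G),
      f w ∈ NC w X ↔ (f : Out G) ∈ X := by
    intro X f
    constructor
    · intro h
      rw [hNC] at h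
      exact (h1 _ (hX X)).1 f h
    · intro h
      exact Subgroup.subset_normalClosure ⟨f, h, rfl⟩
  have a2 : ∀ (X : Set (Out G)) (f : MulAut G),
      InnerMod (NC w X) f ↔ f ∈ Inn G := by
    intro X f
    constructor
    · intro h
      rw [hNC] at h
      exact (h1 _ (hX X)).2 f h
    · rintro ⟨y, rfl⟩
      refine ⟨y, fun x => ?_⟩
      rw [MulAut.conj_apply, mul_inv_cancel]
      exact Subgroup.one_mem _
  have a3 : ∀ X Y : Set (Out G), NC w X ≤ NC w Y ↔ X ⊆ Y := by
    intro X Y
    constructor
    · intro h q hq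
      induction q using QuotientGroup.induction_on with
      | H f => exact (a1 Y f).mp (h ((a1 X f).mpr hq))
    · intro h
      apply Subgroup.normalClosure_mono
      rintro z ⟨f, hf, rfl⟩
      exact ⟨f, h hf, rfl⟩
  have a4' : ∀ (f : MulAut G) (X : Set (Out G)),
      f • NC w X ≤ NC w {q | (f : Out G)⁻¹ * q ∈ X} := by
    intro f X z hz
    rw [Subgroup.mem_pointwise_smul_iff_inv_smul_mem] at hz
    have hn : (NC w {q | (f : Out G)⁻¹ * q ∈ X}).Normal :=
      Subgroup.normalClosure_normal
    have hn' : ((NC w {q | (f : Out G)⁻¹ * q ∈ X}).comap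
        (f : G ≃* G).toMonoidHom).Normal := hn.comap _
    have hle : NC w X ≤ (NC w {q | (f : Out G)⁻¹ * q ∈ X}).comap
        (f : G ≃* G).toMonoidHom := by
      apply Subgroup.normalClosure_le_normal
      rintro z ⟨g, hg, rfl⟩
      refine Subgroup.subset_normalClosure ⟨f * g, ?_, rfl⟩
      change (f : Out G)⁻¹ * ((f * g : MulAut _) : Out G) ∈ X
      rw [QuotientGroup.mk_mul, inv_mul_cancel_left]
      exact hg
    have h3 : f (f⁻¹ • z) ∈ NC w {q | (f : Out G)⁻¹ * q ∈ X} := hle hz
    change f (f⁻¹ z) ∈ _ at h3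
    rwa [MulAut.apply_inv_self] at h3
  have a4 : ∀ (f : MulAut G) (X : Set (Out G)),
      f • NC w X = NC w {q | (f : Out G)⁻¹ * q ∈ X} := by
    intro f X
    apply le_antisymm (a4' f X)
    have h3 := a4' f⁻¹ {q | (f : Out G)⁻¹ * q ∈ X}
    have e : {q : Out G | ((f⁻¹ : MulAut _) : Out G)⁻¹ * q ∈
        {q | (f : Out G)⁻¹ * q ∈ X}} = X := by
      ext q
      change (f : Out G)⁻¹ *
        (((f⁻¹ : MulAut _) : Out G)⁻¹ * q) ∈ X ↔ q ∈ X
      rw [QuotientGroup.mk_inv, inv_inv, inv_mul_cancel_left]
    rw [e] at h3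
    rwa [Subgroup.pointwise_smul_subset_iff, inv_inv] at h3
  have a5 : ∀ H : Subgroup (Out G), Stab (NC w H) = H := by
    intro H
    ext q
    induction q using QuotientGroup.induction_on with
    | H f =>
      rw [mem_Stab (NC w (H : Set (Out G))) Subgroup.normalClosure_normal, a4]
      constructor
      · intro h
        have h3 : f w ∈ NC w (H : Set (Out G)) := by
          rw [← h, a1]
          change (f : Out G)⁻¹ * (f : Out G) ∈ H
          rw [inv_mul_cancel]
          exact H.one_mem
        exact (a1 _ f).mp h3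
      · intro h
        congr 1
        ext q
        exact Subgroup.mul_mem_cancel_left H (H.inv_mem h)
  exact ⟨w, a1, a2, a3, a4, a5⟩

theorem sections (hI : Run7.h41.IND.Ind G) {X₀ : Set G} (hXf : X₀.Finite)
    (hXc : Subgroup.closure X₀ = ⊤) (hfp : Group.IsFinitelyPresented G) (N H : Subgroup (Out G)) (hNH : N ≤ H)
    (hn : (N.subgroupOf H).Normal) (hfg : N.FG) (hfi : (N.subgroupOf H).FiniteIndex) :
    ∃ (R : Subgroup G) (_ : R.Normal),
      Group.IsFinitelyPresented (G ⧸ R) ∧ Realises R H N := by
  haveI : Group.FG G := Group.fg_iff.mpr ⟨X₀, hXc, hXf⟩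
  haveI := hfp
  obtain ⟨w, -, h1⟩ := Run7.h41.IND.main_ind hI
  set q : MulAut G →* Out G :=
    QuotientGroup.mk' (Inn G) with hq
  have hqs : Function.Surjective q := QuotientGroup.mk'_surjective _
  have hker : ∀ y : G, q (MulAut.conj y) = 1 := fun y =>
    (QuotientGroup.eq_one_iff _).mpr ⟨y, rfl⟩
  obtain ⟨Γ, k1, k2, k3, k4, k5, k6⟩ := h1 (N.comap q) (H.comap q)
    (fun y => by rw [Subgroup.mem_comap, hker]; exact N.one_mem)
    (Subgroup.comap_mono hNH)
    (fun f hf n hn' => by
      rw [Subgroup.mem_comap] at hf hn' ⊢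
      rw [map_mul, map_mul, map_inv]
      exact hn.conj_mem ⟨q n, hNH hn'⟩ hn' ⟨q f, hf⟩)
  -- finiteness
  have hNfg : (N.comap q).FG := by
    obtain ⟨S, hS⟩ := hfg
    choose s hs using hqs
    have hIfg : ((MulAut.conj : G →* MulAut G).range).FG := by
      exact (Group.fg_iff_subgroup_fg _).mp inferInstance
    obtain ⟨S', hS'⟩ := hIfg
    classical
    refine ⟨S' ∪ S.image s, ?_⟩
    apply le_antisymm
    · rw [Subgroup.closure_le]
      intro x hx
      rw [Finset.coe_union] at hx
      rcases hx with hx | hx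
      · have h3 : x ∈ (MulAut.conj : G →* MulAut G).range := by
          rw [← hS']; exact Subgroup.subset_closure hx
        obtain ⟨y, rfl⟩ := h3
        change q (MulAut.conj y) ∈ N
        rw [hker]; exact N.one_mem
      · rw [Finset.coe_image] at hx
        obtain ⟨z, hz, rfl⟩ := hx
        change q (s z) ∈ N
        rw [hs, ← hS]
        exact Subgroup.subset_closure hz
    · intro x hx
      have hx' : q x ∈ Subgroup.closure (S : Set (Out G)) := by
        rw [hS]; exact hx
      have h3 : (Subgroup.closure ((S' ∪ S.image s : Finset _) : Set (MulAut G))).map q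
          = Subgroup.closure (S : Set (Out G)) := by
        rw [MonoidHom.map_closure]
        apply le_antisymm
        · rw [Subgroup.closure_le]
          rintro _ ⟨z, hz, rfl⟩
          rw [Finset.coe_union] at hz
          rcases hz with hz | hz
          · have h3 : z ∈ (MulAut.conj : G →* MulAut G).range := by
              rw [← hS']; exact Subgroup.subset_closure hz
            obtain ⟨y, rfl⟩ := h3
            rw [hker]; exact Subgroup.one_mem _
          · rw [Finset.coe_image] at hz
            obtain ⟨u, hu, rfl⟩ := hz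
            rw [hs]
            exact Subgroup.subset_closure hu
        · apply Subgroup.closure_mono
          intro u hu
          refine ⟨s u, ?_, hs u⟩
          rw [Finset.coe_union, Finset.coe_image]
          exact Or.inr ⟨u, hu, rfl⟩
      rw [← h3] at hx'
      obtain ⟨y, hy, hxy⟩ := hx'
      have h4 : (y : Out G) = (x : Out G) := hxy
      rw [QuotientGroup.eq] at h4
      have h5 : y⁻¹ * x ∈ Subgroup.closure
          ((S' ∪ S.image s : Finset _) : Set (MulAut G)) := by
        have h6 : y⁻¹ * x ∈ (MulAut.conj : G →* MulAut G).range := h4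
        rw [← hS'] at h6
        refine Subgroup.closure_mono ?_ h6
        rw [Finset.coe_union]
        exact Set.subset_union_left
      have e : x = y * (y⁻¹ * x) := by group
      rw [e]
      exact Subgroup.mul_mem _ hy h5
  have hNfi : ((N.comap q).subgroupOf (H.comap q)).FiniteIndex := by
    exact ⟨Subgroup.relIndex_comap_ne_zero q hfi.index_ne_zero⟩
  obtain ⟨E, m1, m2, m3, m4, m5⟩ := Run7.h41.IND.finite_relators
    hXf hXc (N.comap q) (H.comap q)
    (fun y => by rw [Subgroup.mem_comap, hker]; exact N.one_mem)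
    (Subgroup.comap_mono hNH) hNfg hNfi Γ k1 k3 k5 w k2
  have hle : Subgroup.normalClosure E ≤ Γ := Subgroup.normalClosure_le_normal m3
  refine ⟨Subgroup.normalClosure E, inferInstance,
    Group.IsFinitelyPresented.quotient _ ⟨E, m1, rfl⟩, ?_, ?_⟩
  · ext x
    induction x using QuotientGroup.induction_on with
    | H f =>
      rw [mem_Stab (Subgroup.normalClosure E) Subgroup.normalClosure_normal, smul_mem_iff]
      constructor
      · rintro ⟨h2, -⟩
        exact k4 f (hle (h2 w (Subgroup.subset_normalClosure m2)))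
      · intro h
        exact ⟨m4 f h, m4 f⁻¹ ((H.comap q).inv_mem h)⟩
  · intro f
    constructor
    · intro h
      exact k6 f (Run7.h41.IND.InnerMod.mono hle h)
    · intro h
      exact m5 f h

theorem all_sections (hI : Run7.h41.IND.Ind G) (N H : Subgroup (Out G)) (hNH : N ≤ H)
    (hn : (N.subgroupOf H).Normal) : ∃ Γ : Subgroup G, Γ.Normal ∧ Realises Γ H N := by
  obtain ⟨w, -, h1⟩ := Run7.h41.IND.main_ind hI
  set q : MulAut G →* Out G := QuotientGroup.mk' (Inn G) with hq
  have hker : ∀ y : G, q (MulAut.conj y) = 1 := fun y =>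
    (QuotientGroup.eq_one_iff _).mpr ⟨y, rfl⟩
  obtain ⟨Γ, k1, k2, k3, k4, k5, k6⟩ := h1 (N.comap q) (H.comap q)
    (fun y => by rw [Subgroup.mem_comap, hker]; exact N.one_mem)
    (Subgroup.comap_mono hNH)
    (fun f hf n hn' => by
      rw [Subgroup.mem_comap] at hf hn' ⊢
      rw [map_mul, map_mul, map_inv]
      exact hn.conj_mem ⟨q n, hNH hn'⟩ hn' ⟨q f, hf⟩)
  refine ⟨Γ, k1, ?_, fun f => ⟨fun h => k6 f h, fun h => k5 f h⟩⟩
  ext x
  induction x using QuotientGroup.induction_on with
  | H f =>
    rw [mem_Stab Γ k1, smul_mem_iff]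
    exact ⟨fun h => k4 f (h.1 w k2), fun h => ⟨k3 f h, k3 f⁻¹ ((H.comap q).inv_mem h)⟩⟩

/-- **Sections of the mapping class group.**  Let `G` be the fundamental group of the closed
orientable surface `S` of genus `g ≥ 2`, so `Mod_S = Out(G)`.

(1) There is `w` in `G` such that for all subsets `X` of `Out(G)`: the normal closure `NC w X` of the
images of `w` under the automorphisms with class in `X` contains `f(w)` if and only if the class of `f`
is in `X`; only inner automorphisms of `G` act as inner automorphisms on `G/NC w X`; the map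
`NC w` is an equivariant order embedding of the set of all subsets of `Out(G)` into the set of normal
subgroups of `G`; and every subgroup `H` of `Out(G)` is the stabiliser of the normal subgroup `NC w H`.

(2) Every section `H/N` of `Out(G)` is realised by a normal subgroup `Γ` of `G`: `H` is the stabiliser of
`Γ` in `Out(G)`, and `N` is the group of the elements which act trivially on `G/Γ`, up to inner
automorphisms.

(3) If `N` is finitely generated and of finite index in `H`, then `G/Γ` can be taken finitely presented.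

(4) Every subgroup of finite index of `Out(G)` contains a congruence subgroup (Q1 for the genus `g`) if
and only if for every normal subgroup `Γ` of `G` whose stabiliser in `Out(G)` has finite index, this
stabiliser contains a congruence subgroup. -/
theorem result (g : ℕ) (hg : 2 ≤ g) (G : Type) [Group G] (hG : Nonempty (G ≃* SurfaceGroup g)) :
    (∃ w : G,
      (∀ (X : Set (Out G)) (f : MulAut G), f w ∈ NC w X ↔ (f : Out G) ∈ X) ∧
      (∀ (X : Set (Out G)) (f : MulAut G), InnerMod (NC w X) f ↔ f ∈ Inn G) ∧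
      (∀ X Y : Set (Out G), NC w X ≤ NC w Y ↔ X ⊆ Y) ∧
      (∀ (f : MulAut G) (X : Set (Out G)), f • NC w X = NC w {q | (f : Out G)⁻¹ * q ∈ X}) ∧
      ∀ H : Subgroup (Out G), Stab (NC w H) = H) ∧
    (∀ N H : Subgroup (Out G), N ≤ H → (N.subgroupOf H).Normal →
      ∃ Γ : Subgroup G, Γ.Normal ∧ Realises Γ H N) ∧
    (∀ N H : Subgroup (Out G), N ≤ H → (N.subgroupOf H).Normal → N.FG →
      (N.subgroupOf H).FiniteIndex → ∃ (R : Subgroup G) (_ : R.Normal),
        Group.IsFinitelyPresented (G ⧸ R) ∧ Realises R H N) ∧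
    ((∀ H : Subgroup (Out G), H.FiniteIndex → IsCongruence H) ↔
      ∀ Γ : Subgroup G, Γ.Normal → (Stab Γ).FiniteIndex → IsCongruence (Stab Γ)) := by
  obtain ⟨e⟩ := hG
  have hI : Run7.h41.IND.Ind G := Run7.h41.IND.ind_surface g hg e
  obtain ⟨X, hXf, hXc⟩ := Run7.h41.IND.surface_gens g e
  have hfp : Group.IsFinitelyPresented G := Run7.h41.IND.surface_fp g e
  have a := independent hI
  refine ⟨a, all_sections hI, sections hI hXf hXc hfp, fun h Γ _ hf => h _ hf, fun h H hf => ?_⟩
  obtain ⟨w, -, -, -, -, a5⟩ := a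
  have h3 := h (NC w H) Subgroup.normalClosure_normal (by rw [a5]; exact hf)
  rw [a5] at h3
  exact h3

end Pool.Agent.Results.MP_59b15d_al.StabilisersOfNormalSubgroups
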